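import Pool.Agent.PP.FINB

set_option autoImplicit false

/-! Full answer to Q1 of MP_67effe_an (affirmative): for every `n ≥ 1`, every `1 < p < ∞`, every
bounded open set `Θ` of space time and every continuous `f : ∂Θ → ℝ` the upper Perron solution of
the `p`-parabolic equation is at most the lower Perron solution, at every point of `Θ`. The
converse inequality is the elliptic type comparison principle listed as known. -/

namespace Pool.Agent.Results.MP_67effe_an.Resolutivity

theorem result (n : ℕ) (hn : 1 ≤ n) (p : ℝ) (hp : 1 < p) (Θ : Set (PP.X n)) (hΘ : IsOpen Θ)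
    (hb : Bornology.IsBounded Θ) (f : PP.X n → ℝ) (hf : ContinuousOn f (frontier Θ)) :
    ∀ z ∈ Θ, PP.upperH p Θ f z ≤ PP.lowerH p Θ f z :=
  fun _ hz => PP.final hn hp hΘ hb hf hz

end Pool.Agent.Results.MP_67effe_an.Resolutivity
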